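import Mathlib

set_option autoImplicit false

namespace Pool.Agent.H.MP_6142e4_co

open Finset

lemma pig (κ : Type) [Finite κ] (n : ℕ) : ∃ N : ℕ, ∀ c : Fin N → κ,
    ∃ α : Fin n → Fin N, StrictMono α ∧ ∀ i j, c (α i) = c (α j) := by
  classical
  have := Fintype.ofFinite κ
  refine ⟨Fintype.card κ * n + 1, fun c => ?_⟩
  obtain ⟨y, hy⟩ := Fintype.exists_lt_card_fiber_of_mul_lt_card c (n := n) (by simp)
  obtain ⟨t, ht, hc⟩ := exists_subset_card_eq hy.le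
  refine ⟨t.orderEmbOfFin hc, (t.orderEmbOfFin hc).strictMono, fun i j => ?_⟩
  rw [(mem_filter.1 (ht (t.orderEmbOfFin_mem hc i))).2,
    (mem_filter.1 (ht (t.orderEmbOfFin_mem hc j))).2]

lemma grid (κ : Type) [Finite κ] (n : ℕ) : ∃ N1 N2 : ℕ, ∀ c : Fin N1 × Fin N2 → κ,
    ∃ (α : Fin n → Fin N1) (β : Fin n → Fin N2), StrictMono α ∧ StrictMono β ∧
      ∀ i j i' j', c (α i, β j) = c (α i', β j') := by
  obtain ⟨N2, h2⟩ := pig κ n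
  obtain ⟨N1, h1⟩ := pig ((Fin n → Fin N2) × (Fin n → κ)) n
  refine ⟨N1, N2, fun c => ?_⟩
  choose β hβ hc using fun a => h2 fun b => c (a, b)
  obtain ⟨α, hα, h⟩ := h1 fun a => (β a, fun j => c (a, β a j))
  rcases Nat.eq_zero_or_pos n with rfl | hn
  · exact ⟨α, Fin.elim0, hα, fun i => i.elim0, fun i => i.elim0⟩
  refine ⟨α, β (α ⟨0, hn⟩), hα, hβ _, fun i j i' j' => ?_⟩
  have e1 : β (α ⟨0, hn⟩) = β (α i) := congrArg Prod.fst (h _ _)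
  have e2 : β (α i) = β (α i') := congrArg Prod.fst (h _ _)
  have e3 : c (α i, β (α i) j') = c (α i', β (α i') j') := congrFun (congrArg Prod.snd (h i i')) j'
  rw [e1, hc (α i) j j', e3, e2]

variable {V : Type}

def Sp (f : V → ℕ) (a b u w : V) : Prop :=
  (f a < f u ∧ f a < f w ∧ f b < f u ∧ f b < f w) ∨ (f u < f a ∧ f u < f b ∧ f w < f a ∧ f w < f b)

def Sep (x1 x2 z1 z2 : V → ℕ) (a b u w : V) : Prop :=
  Sp x1 a b u w ∨ Sp x2 a b u w ∨ Sp z1 a b u w ∨ Sp z2 a b u w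

def VE (x1 x2 z1 z2 : V → ℕ) (v u w : V) : Prop :=
  Sp x1 v v u w ∨ Sp x2 v v u w ∨ (z1 v < z1 u ∧ z1 v < z1 w) ∨ (z2 v < z2 u ∧ z2 v < z2 w)

variable {x1 x2 z1 z2 : V → ℕ}

lemma Sp.s1 {f : V → ℕ} {a b u w : V} (h : Sp f a b u w) : Sp f b a u w :=
  h.imp (fun h => ⟨h.2.2.1, h.2.2.2, h.1, h.2.1⟩) fun h => ⟨h.2.1, h.1, h.2.2.2, h.2.2.1⟩
lemma Sp.s2 {f : V → ℕ} {a b u w : V} (h : Sp f a b u w) : Sp f a b w u :=
  h.imp (fun h => ⟨h.2.1, h.1, h.2.2.2, h.2.2.1⟩) fun h => ⟨h.2.2.1, h.2.2.2, h.1, h.2.1⟩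
lemma Sp.s3 {f : V → ℕ} {a b u w : V} (h : Sp f a b u w) : Sp f u w a b := h.symm
lemma Sep.s1 {a b u w : V} (h : Sep x1 x2 z1 z2 a b u w) : Sep x1 x2 z1 z2 b a u w :=
  h.imp Sp.s1 (Or.imp Sp.s1 (Or.imp Sp.s1 Sp.s1))
lemma Sep.s2 {a b u w : V} (h : Sep x1 x2 z1 z2 a b u w) : Sep x1 x2 z1 z2 a b w u :=
  h.imp Sp.s2 (Or.imp Sp.s2 (Or.imp Sp.s2 Sp.s2))
lemma Sep.s3 {a b u w : V} (h : Sep x1 x2 z1 z2 a b u w) : Sep x1 x2 z1 z2 u w a b :=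
  h.imp Sp.s3 (Or.imp Sp.s3 (Or.imp Sp.s3 Sp.s3))
lemma VE.s {v u w : V} (h : VE x1 x2 z1 z2 v u w) : VE x1 x2 z1 z2 v w u :=
  h.imp Sp.s2 (Or.imp Sp.s2 (Or.imp And.symm And.symm))

structure Good (G : SimpleGraph V) (x1 x2 z1 z2 : V → ℕ) : Prop where
  e : ∀ a b u w, G.Adj a b → G.Adj u w → a ≠ u → a ≠ w → b ≠ u → b ≠ w → Sep x1 x2 z1 z2 a b u w
  v : ∀ v u w, G.Adj u w → v ≠ u → v ≠ w → VE x1 x2 z1 z2 v u w

lemma lex {a a' r r' M : ℕ} (h : a < a') (hr : r < M) : a * M + r < a' * M + r' := by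
  have := Nat.mul_le_mul_right M (Nat.succ_le_of_lt h)
  rw [Nat.succ_mul] at this
  omega

theorem core {S I : Type} (G : SimpleGraph V) (hG : Good G x1 x2 z1 z2) (pos : I × V → S)
    (s1 s2 : S → ℕ) (hs : ∀ s s', s1 s = s1 s' → s2 s = s2 s' → s = s')
    (X1 X2 Z1 Z2 : S ⊕ (I × V) → ℕ) (τ : I → ℕ) (hτ : Function.Injective τ)
    (ι : I × V → ℕ) (hι : Function.Injective ι)
    (p1 : ∀ t u w, x1 u < x1 w → s1 (pos (t, u)) < s1 (pos (t, w)))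
    (p2 : ∀ t u w, x2 u < x2 w → s2 (pos (t, u)) < s2 (pos (t, w)))
    (a1 : ∀ y y', s1 (Sum.elim id pos y) < s1 (Sum.elim id pos y') → X1 y < X1 y')
    (a2 : ∀ y y', s2 (Sum.elim id pos y) < s2 (Sum.elim id pos y') → X2 y < X2 y')
    (b1 : ∀ p, X1 (.inl (pos p)) < X1 (.inr p)) (b2 : ∀ p, X2 (.inl (pos p)) < X2 (.inr p))
    (c1 : ∀ p q, pos p = pos q → ι p < ι q → X1 (.inr p) < X1 (.inr q) ∧ X2 (.inr q) < X2 (.inr p))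
    (d1 : ∀ s p, Z1 (.inl s) < Z1 (.inr p)) (d2 : ∀ s p, Z2 (.inl s) < Z2 (.inr p))
    (e1 : ∀ t t' u w, τ t < τ t' →
      Z1 (.inr (t, u)) < Z1 (.inr (t', w)) ∧ Z2 (.inr (t', w)) < Z2 (.inr (t, u)))
    (f1 : ∀ t u w, z1 u < z1 w → Z1 (.inr (t, u)) < Z1 (.inr (t, w)))
    (f2 : ∀ t u w, z2 u < z2 w → Z2 (.inr (t, u)) < Z2 (.inr (t, w)))
    (G' : SimpleGraph (S ⊕ (I × V)))
    (hG' : ∀ y y', G'.Adj y y' → (∃ t u w, y = .inr (t, u) ∧ y' = .inr (t, w) ∧ G.Adj u w) ∨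
      (∃ p, y = .inl (pos p) ∧ y' = .inr p) ∨ ∃ p, y = .inr p ∧ y' = .inl (pos p)) :
    Good G' X1 X2 Z1 Z2 := by
  have g1 : ∀ t u w, x1 u < x1 w → X1 (.inr (t, u)) < X1 (.inr (t, w)) ∧
      X1 (.inl (pos (t, u))) < X1 (.inr (t, w)) ∧ X1 (.inr (t, u)) < X1 (.inl (pos (t, w))) :=
    fun t u w h => ⟨a1 _ _ (p1 t u w h), a1 _ _ (p1 t u w h), a1 _ _ (p1 t u w h)⟩
  have g2 : ∀ t u w, x2 u < x2 w → X2 (.inr (t, u)) < X2 (.inr (t, w)) ∧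
      X2 (.inl (pos (t, u))) < X2 (.inr (t, w)) ∧ X2 (.inr (t, u)) < X2 (.inl (pos (t, w))) :=
    fun t u w h => ⟨a2 _ _ (p2 t u w h), a2 _ _ (p2 t u w h), a2 _ _ (p2 t u w h)⟩
  have far : ∀ y y' q, Sum.elim id pos y = Sum.elim id pos y' → Sum.elim id pos y ≠ pos q →
      Sp X1 y y' (.inl (pos q)) (.inr q) ∨ Sp X2 y y' (.inl (pos q)) (.inr q) := by
    intro y y' q h1 h2
    rcases lt_trichotomy (s1 (Sum.elim id pos y)) (s1 (pos q)) with h | h | h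
    · exact Or.inl (Or.inl ⟨a1 _ _ h, a1 _ _ h, a1 _ _ (h1 ▸ h), a1 _ _ (h1 ▸ h)⟩)
    · rcases lt_trichotomy (s2 (Sum.elim id pos y)) (s2 (pos q)) with h' | h' | h'
      · exact Or.inr (Or.inl ⟨a2 _ _ h', a2 _ _ h', a2 _ _ (h1 ▸ h'), a2 _ _ (h1 ▸ h')⟩)
      · exact absurd (hs _ _ h h') h2
      · exact Or.inr (Or.inr ⟨a2 _ _ h', a2 _ _ (h1 ▸ h'), a2 _ _ h', a2 _ _ (h1 ▸ h')⟩)
    · exact Or.inl (Or.inr ⟨a1 _ _ h, a1 _ _ (h1 ▸ h), a1 _ _ h, a1 _ _ (h1 ▸ h)⟩)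
  have cc : ∀ t a b t' u w, G.Adj a b → G.Adj u w → (t, a) ≠ (t', u) → (t, a) ≠ (t', w) →
      (t, b) ≠ (t', u) → (t, b) ≠ (t', w) →
      Sep X1 X2 Z1 Z2 (.inr (t, a)) (.inr (t, b)) (.inr (t', u)) (.inr (t', w)) := by
    intro t a b t' u w h1 h2 n1 n2 n3 n4
    rcases lt_trichotomy (τ t) (τ t') with h | h | h
    · exact Or.inr (Or.inr (Or.inl (Or.inl ⟨(e1 _ _ _ _ h).1, (e1 _ _ _ _ h).1, (e1 _ _ _ _ h).1,
        (e1 _ _ _ _ h).1⟩)))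
    · obtain rfl := hτ h
      rcases hG.e a b u w h1 h2 (fun e => n1 (by rw [e])) (fun e => n2 (by rw [e]))
        (fun e => n3 (by rw [e])) (fun e => n4 (by rw [e])) with
        (h | h) | (h | h) | (h | h) | (h | h)
      · exact Or.inl (Or.inl ⟨(g1 _ _ _ h.1).1, (g1 _ _ _ h.2.1).1, (g1 _ _ _ h.2.2.1).1,
          (g1 _ _ _ h.2.2.2).1⟩)
      · exact Or.inl (Or.inr ⟨(g1 _ _ _ h.1).1, (g1 _ _ _ h.2.1).1, (g1 _ _ _ h.2.2.1).1,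
          (g1 _ _ _ h.2.2.2).1⟩)
      · exact Or.inr (Or.inl (Or.inl ⟨(g2 _ _ _ h.1).1, (g2 _ _ _ h.2.1).1, (g2 _ _ _ h.2.2.1).1,
          (g2 _ _ _ h.2.2.2).1⟩))
      · exact Or.inr (Or.inl (Or.inr ⟨(g2 _ _ _ h.1).1, (g2 _ _ _ h.2.1).1, (g2 _ _ _ h.2.2.1).1,
          (g2 _ _ _ h.2.2.2).1⟩))
      · exact Or.inr (Or.inr (Or.inl (Or.inl ⟨f1 _ _ _ h.1, f1 _ _ _ h.2.1, f1 _ _ _ h.2.2.1,
          f1 _ _ _ h.2.2.2⟩)))
      · exact Or.inr (Or.inr (Or.inl (Or.inr ⟨f1 _ _ _ h.1, f1 _ _ _ h.2.1, f1 _ _ _ h.2.2.1,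
          f1 _ _ _ h.2.2.2⟩)))
      · exact Or.inr (Or.inr (Or.inr (Or.inl ⟨f2 _ _ _ h.1, f2 _ _ _ h.2.1, f2 _ _ _ h.2.2.1,
          f2 _ _ _ h.2.2.2⟩)))
      · exact Or.inr (Or.inr (Or.inr (Or.inr ⟨f2 _ _ _ h.1, f2 _ _ _ h.2.1, f2 _ _ _ h.2.2.1,
          f2 _ _ _ h.2.2.2⟩)))
    · exact Or.inr (Or.inr (Or.inl (Or.inr ⟨(e1 _ _ _ _ h).1, (e1 _ _ _ _ h).1, (e1 _ _ _ _ h).1,
        (e1 _ _ _ _ h).1⟩)))
  have mc : ∀ t v t' u w, G.Adj u w → (t, v) ≠ (t', u) → (t, v) ≠ (t', w) →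
      Sep X1 X2 Z1 Z2 (.inl (pos (t, v))) (.inr (t, v)) (.inr (t', u)) (.inr (t', w)) ∧
      VE X1 X2 Z1 Z2 (.inr (t, v)) (.inr (t', u)) (.inr (t', w)) := by
    intro t v t' u w h2 n1 n2
    rcases lt_trichotomy (τ t) (τ t') with h | h | h
    · exact ⟨Or.inr (Or.inr (Or.inl (Or.inl ⟨d1 _ _, d1 _ _, (e1 _ _ _ _ h).1,
        (e1 _ _ _ _ h).1⟩))), Or.inr (Or.inr (Or.inl ⟨(e1 _ _ _ _ h).1, (e1 _ _ _ _ h).1⟩))⟩
    · obtain rfl := hτ h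
      rcases hG.v v u w h2 (fun e => n1 (by rw [e])) (fun e => n2 (by rw [e])) with
        (h | h) | (h | h) | h | h
      · exact ⟨Or.inl (Or.inl ⟨(g1 _ _ _ h.1).2.1, (g1 _ _ _ h.2.1).2.1, (g1 _ _ _ h.1).1,
          (g1 _ _ _ h.2.1).1⟩), Or.inl (Or.inl ⟨(g1 _ _ _ h.1).1, (g1 _ _ _ h.2.1).1,
          (g1 _ _ _ h.1).1, (g1 _ _ _ h.2.1).1⟩)⟩
      · exact ⟨Or.inl (Or.inr ⟨(g1 _ _ _ h.1).2.2, (g1 _ _ _ h.1).1, (g1 _ _ _ h.2.2.1).2.2,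
          (g1 _ _ _ h.2.2.1).1⟩), Or.inl (Or.inr ⟨(g1 _ _ _ h.1).1, (g1 _ _ _ h.1).1,
          (g1 _ _ _ h.2.2.1).1, (g1 _ _ _ h.2.2.1).1⟩)⟩
      · exact ⟨Or.inr (Or.inl (Or.inl ⟨(g2 _ _ _ h.1).2.1, (g2 _ _ _ h.2.1).2.1, (g2 _ _ _ h.1).1,
          (g2 _ _ _ h.2.1).1⟩)), Or.inr (Or.inl (Or.inl ⟨(g2 _ _ _ h.1).1, (g2 _ _ _ h.2.1).1,
          (g2 _ _ _ h.1).1, (g2 _ _ _ h.2.1).1⟩))⟩
      · exact ⟨Or.inr (Or.inl (Or.inr ⟨(g2 _ _ _ h.1).2.2, (g2 _ _ _ h.1).1, (g2 _ _ _ h.2.2.1).2.2,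
          (g2 _ _ _ h.2.2.1).1⟩)), Or.inr (Or.inl (Or.inr ⟨(g2 _ _ _ h.1).1, (g2 _ _ _ h.1).1,
          (g2 _ _ _ h.2.2.1).1, (g2 _ _ _ h.2.2.1).1⟩))⟩
      · exact ⟨Or.inr (Or.inr (Or.inl (Or.inl ⟨d1 _ _, d1 _ _, f1 _ _ _ h.1, f1 _ _ _ h.2⟩))),
          Or.inr (Or.inr (Or.inl ⟨f1 _ _ _ h.1, f1 _ _ _ h.2⟩))⟩
      · exact ⟨Or.inr (Or.inr (Or.inr (Or.inl ⟨d2 _ _, d2 _ _, f2 _ _ _ h.1, f2 _ _ _ h.2⟩))),
          Or.inr (Or.inr (Or.inr ⟨f2 _ _ _ h.1, f2 _ _ _ h.2⟩))⟩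
    · exact ⟨Or.inr (Or.inr (Or.inr (Or.inl ⟨d2 _ _, d2 _ _, (e1 _ _ _ _ h).2,
        (e1 _ _ _ _ h).2⟩))), Or.inr (Or.inr (Or.inr ⟨(e1 _ _ _ _ h).2, (e1 _ _ _ _ h).2⟩))⟩
  have mm : ∀ p q, pos p ≠ pos q →
      Sep X1 X2 Z1 Z2 (.inl (pos p)) (.inr p) (.inl (pos q)) (.inr q) := fun p q h =>
    (far (.inl (pos p)) (.inr p) q rfl h).elim Or.inl fun h => Or.inr (Or.inl h)
  have vm : ∀ y q, y ≠ .inl (pos q) → y ≠ .inr q → VE X1 X2 Z1 Z2 y (.inl (pos q)) (.inr q) := by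
    intro y q n1 n2
    by_cases h : Sum.elim id pos y = pos q
    · cases y with
      | inl s => exact absurd (congrArg Sum.inl h) n1
      | inr p =>
        have h : pos p = pos q := h
        rcases lt_trichotomy (ι p) (ι q) with h' | h' | h'
        · have := b2 p
          rw [h] at this
          exact Or.inr (Or.inl (Or.inr ⟨this, this, (c1 _ _ h h').2, (c1 _ _ h h').2⟩))
        · exact absurd (congrArg Sum.inr (hι h')) n2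
        · have := b1 p
          rw [h] at this
          exact Or.inl (Or.inr ⟨this, this, (c1 _ _ h.symm h').1, (c1 _ _ h.symm h').1⟩)
    · exact (far y y q rfl h).elim Or.inl fun h => Or.inr (Or.inl h)
  have ne : ∀ {p q : I × V}, (Sum.inr p : S ⊕ (I × V)) ≠ .inr q → p ≠ q :=
    fun h e => h (congrArg Sum.inr e)
  have ne' : ∀ {p q : S}, (Sum.inl p : S ⊕ (I × V)) ≠ .inl q → p ≠ q :=
    fun h e => h (congrArg Sum.inl e)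
  constructor
  · intro a b u w h1 h2 n1 n2 n3 n4
    rcases hG' _ _ h1 with ⟨t, a', b', rfl, rfl, k1⟩ | ⟨⟨t, v⟩, rfl, rfl⟩ | ⟨⟨t, v⟩, rfl, rfl⟩ <;>
      rcases hG' _ _ h2 with ⟨t', u', w', rfl, rfl, k2⟩ | ⟨⟨t', v'⟩, rfl, rfl⟩ |
        ⟨⟨t', v'⟩, rfl, rfl⟩
    · exact cc _ _ _ _ _ _ k1 k2 (ne n1) (ne n2) (ne n3) (ne n4)
    · exact (mc _ _ _ _ _ k1 (ne n2).symm (ne n4).symm).1.s3
    · exact (mc _ _ _ _ _ k1 (ne n1).symm (ne n3).symm).1.s1.s3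
    · exact (mc _ _ _ _ _ k2 (ne n3) (ne n4)).1
    · exact mm _ _ (ne' n1)
    · exact (mm _ _ (ne' n2)).s2
    · exact (mc _ _ _ _ _ k2 (ne n1) (ne n2)).1.s1
    · exact (mm _ _ (ne' n3)).s1
    · exact (mm _ _ (ne' n4)).s1.s2
  · intro v u w h2 n1 n2
    rcases hG' _ _ h2 with ⟨t', u', w', rfl, rfl, k2⟩ | ⟨q, rfl, rfl⟩ | ⟨q, rfl, rfl⟩
    · cases v with
      | inl s => exact Or.inr (Or.inr (Or.inl ⟨d1 _ _, d1 _ _⟩))
      | inr p => exact (mc p.1 p.2 _ _ _ k2 (ne n1) (ne n2)).2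
    · exact vm _ _ n1 n2
    · exact (vm _ _ n2 n1).s

theorem step [Fintype V] (G : SimpleGraph V) (hG : Good G x1 x2 z1 z2) (k : ℕ)
    (hk : ¬ G.Colorable k) : ∃ (V' : Type) (_ : Fintype V') (G' : SimpleGraph V')
      (X1 X2 Z1 Z2 : V' → ℕ), Good G' X1 X2 Z1 Z2 ∧ ¬ G'.Colorable (k + 1) := by
  classical
  obtain ⟨n, hn⟩ : ∃ n, ∀ v, x1 v < n ∧ x2 v < n ∧ z1 v < n ∧ z2 v < n := by
    refine ⟨∑ v, (x1 v + x2 v + z1 v + z2 v) + 1, fun v => ?_⟩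
    have := single_le_sum (f := fun v => x1 v + x2 v + z1 v + z2 v) (fun _ _ => Nat.zero_le _)
      (mem_univ v)
    omega
  obtain ⟨N1, N2, hN⟩ := grid (Fin (k + 1)) n
  let I := {t : (Fin n → Fin N1) × (Fin n → Fin N2) // StrictMono t.1 ∧ StrictMono t.2}
  let pos : I × V → Fin N1 × Fin N2 := fun p =>
    (p.1.1.1 ⟨x1 p.2, (hn _).1⟩, p.1.1.2 ⟨x2 p.2, (hn _).2.1⟩)
  let τ := Fintype.equivFin I
  let ι := Fintype.equivFin (I × V)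
  set M := Fintype.card (I × V)
  set m := Fintype.card I
  let R : (Fin N1 × Fin N2) ⊕ (I × V) → (Fin N1 × Fin N2) ⊕ (I × V) → Prop := fun y y' =>
    (∃ t u w, y = .inr (t, u) ∧ y' = .inr (t, w) ∧ G.Adj u w) ∨ ∃ p, y = .inl (pos p) ∧ y' = .inr p
  refine ⟨(Fin N1 × Fin N2) ⊕ (I × V), inferInstance, SimpleGraph.fromRel R,
    fun y => (Sum.elim id pos y).1.val * (M + 1) + Sum.elim (fun _ => 0) (fun p => (ι p).val + 1) y,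
    fun y => (Sum.elim id pos y).2.val * (M + 1) + Sum.elim (fun _ => 0) (fun p => M - (ι p).val) y,
    Sum.elim (fun _ => 0) fun p => (τ p.1).val * n + z1 p.2 + 1,
    Sum.elim (fun _ => 0) fun p => (m - (τ p.1).val) * n + z2 p.2 + 1, ?_, ?_⟩
  · refine core G hG pos (fun s => s.1.val) (fun s => s.2.val)
      (fun s s' h1 h2 => Prod.ext (Fin.ext h1) (Fin.ext h2)) _ _ _ _ (fun t => (τ t).val)
      (Fin.val_injective.comp τ.injective) (fun p => (ι p).val)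
      (Fin.val_injective.comp ι.injective) (fun t u w h => t.2.1 h) (fun t u w h => t.2.2 h)
      ?_ ?_ ?_ ?_ ?_ ?_ ?_ ?_ ?_ ?_ _ ?_
    · intro y y' h
      refine lex h ?_
      cases y with
      | inl s => simp
      | inr p => have := (ι p).2; simp only [Sum.elim_inr]; omega
    · intro y y' h
      refine lex h ?_
      cases y with
      | inl s => simp
      | inr p => simp only [Sum.elim_inr]; omega
    · intro p; simp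
    · intro p; have := (ι p).2; simp only [Sum.elim_inr, Sum.elim_inl, id]; omega
    · intro p q h h'
      have := (ι q).2
      simp only [Sum.elim_inr, h]
      omega
    · intro s p; simp
    · intro s p; simp
    · intro t t' u w h
      have h1 := (τ t').2
      have h2 := lex (r' := z1 w) h (hn u).2.2.1
      have h3 := lex (a := m - (τ t').val) (a' := m - (τ t).val) (r' := z2 u) (by omega)
        (hn w).2.2.2
      simp only [Sum.elim_inr]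
      omega
    · intro t u w h; simp only [Sum.elim_inr]; omega
    · intro t u w h; simp only [Sum.elim_inr]; omega
    · rintro y y' ⟨-, (⟨t, u, w, h1, h2, h3⟩ | ⟨p, h1, h2⟩) | (⟨t, u, w, h1, h2, h3⟩ | ⟨p, h1, h2⟩)⟩
      · exact Or.inl ⟨t, u, w, h1, h2, h3⟩
      · exact Or.inr (Or.inl ⟨p, h1, h2⟩)
      · exact Or.inl ⟨t, w, u, h2, h1, h3.symm⟩
      · exact Or.inr (Or.inr ⟨p, h2, h1⟩)
  · rintro ⟨c⟩
    obtain ⟨α, β, hα, hβ, h⟩ := hN fun s => c (.inl s)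
    let t : I := ⟨(α, β), hα, hβ⟩
    rcases isEmpty_or_nonempty V with hV | ⟨⟨v0⟩⟩
    · exact hk (SimpleGraph.Colorable.of_isEmpty _)
    have h1 : ∀ v, c (.inr (t, v)) ≠ c (.inl (pos (t, v0))) := by
      intro v
      rw [← show c (.inl (pos (t, v))) = c (.inl (pos (t, v0))) from h _ _ _ _]
      exact (c.valid ⟨by simp, Or.inl (Or.inr ⟨(t, v), rfl, rfl⟩)⟩).symm
    choose φ hφ using fun v => Fin.exists_succAbove_eq (h1 v)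
    refine hk ⟨SimpleGraph.Coloring.mk φ fun {u w} a e => ?_⟩
    refine c.valid (v := .inr (t, u)) (w := .inr (t, w))
      ⟨by simp [a.ne], Or.inl (Or.inl ⟨t, u, w, rfl, rfl, a⟩)⟩ ?_
    rw [← hφ u, ← hφ w, e]

theorem exists_good (k : ℕ) : ∃ (V : Type) (_ : Fintype V) (G : SimpleGraph V)
    (x1 x2 z1 z2 : V → ℕ), Good G x1 x2 z1 z2 ∧ ¬ G.Colorable k := by
  induction k with
  | zero =>
    refine ⟨Unit, inferInstance, ⊥, 0, 0, 0, 0, ⟨fun _ _ _ _ h => h.elim, fun _ _ _ h => h.elim⟩, ?_⟩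
    rintro ⟨c⟩
    exact (c ()).elim0
  | succ k ih =>
    obtain ⟨V, _, G, x1, x2, z1, z2, h1, h2⟩ := ih
    exact step G h1 k h2

theorem four (k : ℕ) : ∃ (n : ℕ) (G : SimpleGraph (Fin n)) (f : Fin 4 → Fin n → ℝ),
    (∀ a b x y : Fin n, G.Adj a b → G.Adj x y → a ≠ x → a ≠ y → b ≠ x → b ≠ y →
      ∃ i : Fin 4, max (f i a) (f i b) < min (f i x) (f i y) ∨
        max (f i x) (f i y) < min (f i a) (f i b)) ∧ ¬ G.Colorable k := by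
  obtain ⟨V, _, G, x1, x2, z1, z2, h1, h2⟩ := exists_good k
  let e := (Fintype.equivFin V).symm
  refine ⟨_, G.comap e, fun i v => ((![x1, x2, z1, z2] i (e v) : ℕ) : ℝ), ?_, ?_⟩
  · intro a b x y k1 k2 n1 n2 n3 n4
    have sp : ∀ g : V → ℕ, Sp g (e a) (e b) (e x) (e y) →
        max (g (e a) : ℝ) (g (e b)) < min (g (e x) : ℝ) (g (e y)) ∨
        max (g (e x) : ℝ) (g (e y)) < min (g (e a) : ℝ) (g (e b)) := by
      intro g h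
      simp only [max_lt_iff, lt_min_iff, Nat.cast_lt]
      exact h.imp (fun h => ⟨⟨h.1, h.2.2.1⟩, h.2.1, h.2.2.2⟩) fun h =>
        ⟨⟨h.1, h.2.2.1⟩, h.2.1, h.2.2.2⟩
    rcases h1.e _ _ _ _ k1 k2 (e.injective.ne n1) (e.injective.ne n2) (e.injective.ne n3)
      (e.injective.ne n4) with h | h | h | h
    · exact ⟨0, sp _ h⟩
    · exact ⟨1, sp _ h⟩
    · exact ⟨2, sp _ h⟩
    · exact ⟨3, sp _ h⟩
  · rintro ⟨c⟩
    exact h2 ⟨SimpleGraph.Coloring.mk (fun v => c (e.symm v)) fun {u w} a =>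
      c.valid (by simpa using a)⟩

end Pool.Agent.H.MP_6142e4_co
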