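import Pool.Agent.H.MP_6142e4_co.A
import Pool.Agent.H.MP_35c2eb_co.A

set_option autoImplicit false

namespace Pool.Agent.H.MP_6142e4_co

open Finset

open Classical in
lemma degen {V : Type} (G : SimpleGraph V) (k : ℕ) (n : ℕ) : ∀ W : Finset V, W.card = n →
    (∀ U ⊆ W, U.Nonempty → ∃ v ∈ U, (U.filter fun u => G.Adj v u).card < k + 1) →
    ∃ φ : V → Fin (k + 1), ∀ u ∈ W, ∀ v ∈ W, G.Adj u v → φ u ≠ φ v := by
  induction n with
  | zero =>
    intro W hW _
    rw [card_eq_zero.1 hW]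
    exact ⟨fun _ => 0, by simp⟩
  | succ n ih =>
    intro W hW h
    obtain ⟨v, hv, hd⟩ := h W subset_rfl (card_pos.1 (by omega))
    obtain ⟨φ, hφ⟩ := ih (W.erase v) (by rw [card_erase_of_mem hv]; omega)
      fun U hU => h U (hU.trans (erase_subset _ _))
    obtain ⟨c, -, hc⟩ := exists_mem_notMem_of_card_lt_card
      (s := (W.filter fun u => G.Adj v u).image φ) (t := univ)
      (lt_of_le_of_lt card_image_le (by simpa using hd))
    refine ⟨Function.update φ v c, fun x hx y hy a => ?_⟩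
    by_cases h1 : x = v
    · subst h1
      rw [Function.update_self, Function.update_of_ne a.ne']
      exact fun e => hc (mem_image.2 ⟨y, mem_filter.2 ⟨hy, a⟩, e.symm⟩)
    by_cases h2 : y = v
    · subst h2
      rw [Function.update_self, Function.update_of_ne a.ne]
      exact fun e => hc (mem_image.2 ⟨x, mem_filter.2 ⟨hx, a.symm⟩, e⟩)
    rw [Function.update_of_ne h1, Function.update_of_ne h2]
    exact hφ x (mem_erase.2 ⟨h1, hx⟩) y (mem_erase.2 ⟨h2, hy⟩) a

lemma rank {W : Type} [Fintype W] (g : W × Bool → ℝ) : ∃ f : W × Bool → ℕ, Function.Injective f ∧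
    ∀ a b, (f (a, false) ≤ f (b, true) ↔ g (a, false) ≤ g (b, true)) := by
  classical
  let e := Fintype.equivFin W
  let key : W × Bool → ℝ ×ₗ Bool ×ₗ Fin (Fintype.card W) := fun p => toLex (g p, toLex (p.2, e p.1))
  have ki : Function.Injective key := by
    intro p q h
    have h1 : (toLex (p.2, e p.1) : Bool ×ₗ Fin (Fintype.card W)) = toLex (q.2, e q.1) :=
      congrArg (fun z => (ofLex z).2) h
    exact Prod.ext (e.injective (congrArg (fun z => (ofLex z).2) h1))
      (congrArg (fun z => (ofLex z).1) h1)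
  let f : W × Bool → ℕ := fun p => (univ.filter fun q => key q < key p).card
  have mono : ∀ p q, key p < key q → f p < f q := by
    intro p q h
    refine card_lt_card ⟨fun x hx => mem_filter.2 ⟨mem_univ _, (mem_filter.1 hx).2.trans h⟩,
      fun hs => ?_⟩
    exact lt_irrefl _ (mem_filter.1 (hs (mem_filter.2 ⟨mem_univ p, h⟩))).2
  refine ⟨f, fun p q h => ?_, fun a b => ⟨fun h => ?_, fun h => (mono _ _ ?_).le⟩⟩
  · rcases lt_trichotomy (key p) (key q) with h1 | h1 | h1
    · exact absurd h (mono _ _ h1).ne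
    · exact ki h1
    · exact absurd h (mono _ _ h1).ne'
  · by_contra hc
    exact absurd h (not_le.2 (mono _ _ (Prod.Lex.toLex_lt_toLex.2 (Or.inl (not_le.1 hc)))))
  · refine Prod.Lex.toLex_lt_toLex.2 (h.lt_or_eq.imp id fun h => ⟨h, ?_⟩)
    exact Prod.Lex.toLex_lt_toLex.2 (Or.inl (by simp))

lemma line {V : Type} (G : SimpleGraph V) (f : Fin 4 → V → ℝ)
    (h : ∀ a b x y : V, G.Adj a b → G.Adj x y → a ≠ x → a ≠ y → b ≠ x → b ≠ y →
      ∃ i : Fin 4, max (f i a) (f i b) < min (f i x) (f i y) ∨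
        max (f i x) (f i y) < min (f i a) (f i b)) :
    ∃ l r : G.edgeSet → Fin 4 → ℝ, (∀ e i, l e i ≤ r e i) ∧
      ∀ e₁ e₂ : G.edgeSet, e₁ ≠ e₂ →
        (G.lineGraph.Adj e₁ e₂ ↔ ∀ i, max (l e₁ i) (l e₂ i) ≤ min (r e₁ i) (r e₂ i)) := by
  refine ⟨fun e i => Sym2.lift ⟨fun a b => min (f i a) (f i b), fun _ _ => min_comm _ _⟩ e.1,
    fun e i => Sym2.lift ⟨fun a b => max (f i a) (f i b), fun _ _ => max_comm _ _⟩ e.1, ?_, ?_⟩
  · rintro ⟨e, he⟩ i
    induction e using Sym2.ind with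
    | h a b => exact min_le_max
  · rintro ⟨e, he⟩ ⟨e', he'⟩ hne
    induction e using Sym2.ind with
    | h a b =>
    induction e' using Sym2.ind with
    | h x y =>
    rw [SimpleGraph.lineGraph_adj_iff_exists]
    simp only [Sym2.lift_mk, Sym2.mem_iff]
    constructor
    · rintro ⟨-, v, h1, h2⟩ i
      have k1 : min (f i a) (f i b) ≤ f i v ∧ f i v ≤ max (f i a) (f i b) := by
        rcases h1 with rfl | rfl <;> simp
      have k2 : min (f i x) (f i y) ≤ f i v ∧ f i v ≤ max (f i x) (f i y) := by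
        rcases h2 with rfl | rfl <;> simp
      exact (max_le k1.1 k2.1).trans (le_min k1.2 k2.2)
    · intro hh
      refine ⟨hne, ?_⟩
      by_contra hc
      obtain ⟨i, hi⟩ := h a b x y he he' (fun e => hc ⟨a, Or.inl rfl, Or.inl e⟩)
        (fun e => hc ⟨a, Or.inl rfl, Or.inr e⟩) (fun e => hc ⟨b, Or.inr rfl, Or.inl e⟩)
        (fun e => hc ⟨b, Or.inr rfl, Or.inr e⟩)
      have h3 := hh i
      rcases hi with hi | hi
      · exact absurd (((le_max_right _ _).trans h3).trans (min_le_left _ _)) (not_le.2 hi)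
      · exact absurd (((le_max_left _ _).trans h3).trans (min_le_right _ _)) (not_le.2 hi)

theorem nobox (d : ℕ) : ∃ (V : Type) (_ : Fintype V) (G : SimpleGraph V),
    (∃ l r : G.edgeSet → Fin 4 → ℝ, (∀ e i, l e i ≤ r e i) ∧
      ∀ e₁ e₂ : G.edgeSet, e₁ ≠ e₂ →
        (G.lineGraph.Adj e₁ e₂ ↔ ∀ i, max (l e₁ i) (l e₂ i) ≤ min (r e₁ i) (r e₂ i))) ∧
    ¬ ∃ l r : V → Fin d → ℝ, (∀ v i, l v i ≤ r v i) ∧
      ∀ u v : V, u ≠ v → (G.Adj u v ↔ ∀ i, max (l u i) (l v i) ≤ min (r u i) (r v i)) := by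
  classical
  by_contra hcon
  push Not at hcon
  set C := (4 * (d + d)).factorial * 2 ^ (4 * (d + d)) with hC
  obtain ⟨n, G, f, h1, h2⟩ := four (2 * C + 1)
  have ex : ∃ U : Finset (Fin n), U.Nonempty ∧ ∀ v ∈ U,
      2 * C + 1 ≤ (U.filter fun u => G.Adj v u).card := by
    by_contra hc
    push Not at hc
    obtain ⟨φ, hφ⟩ := degen G (2 * C) _ univ rfl fun U _ hU => hc U hU
    exact h2 ⟨SimpleGraph.Coloring.mk φ fun {u v} a => hφ u (mem_univ _) v (mem_univ _) a⟩
  obtain ⟨U, hU, hd⟩ := ex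
  let E0 : Finset (U × U) := univ.filter fun p => G.Adj p.1 p.2 ∧ p.1 < p.2
  let e : U × U → (U × Bool) × (U × Bool) := fun p => ((p.1, false), (p.2, true))
  have ei : Function.Injective e := fun p q h =>
    Prod.ext (congrArg (fun z => z.1.1) h) (congrArg (fun z => z.2.1) h)
  have key := Pool.Agent.H.MP_35c2eb_co.count (d + d) (E0.image e) (by
      intro p hp
      obtain ⟨q, -, rfl⟩ := mem_image.1 hp
      simp [e]) (by
    intro F hF
    have FE : ∀ p, e p ∈ F → G.Adj p.1 p.2 ∧ p.1 < p.2 := by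
      intro p hp
      obtain ⟨q, hq, h⟩ := mem_image.1 (hF hp)
      rw [ei h] at hq
      exact (mem_filter.1 hq).2
    let H : SimpleGraph U := SimpleGraph.fromRel fun u v => e (u, v) ∈ F
    have HG : ∀ u v, H.Adj u v → G.Adj u v := fun u v a =>
      a.2.elim (fun h => (FE _ h).1) fun h => (FE _ h).1.symm
    obtain ⟨l, r, lr, hb⟩ := hcon U inferInstance H (line H (fun i u => f i u.1)
      fun a b x y k1 k2 n1 n2 n3 n4 => h1 a b x y (HG _ _ k1) (HG _ _ k2)
        (Subtype.val_injective.ne n1) (Subtype.val_injective.ne n2)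
        (Subtype.val_injective.ne n3) (Subtype.val_injective.ne n4))
    choose f1 i1 r1 using fun i => rank fun p : U × Bool => if p.2 then r p.1 i else l p.1 i
    choose f2 i2 r2 using fun i => rank fun p : U × Bool => if p.2 then -l p.1 i else -r p.1 i
    refine ⟨Fin.addCases f1 f2, fun i => ?_, fun p hp => ?_⟩
    · refine Fin.addCases (fun i => ?_) (fun i => ?_) i
      · simp only [Fin.addCases_left]; exact i1 i
      · simp only [Fin.addCases_right]; exact i2 i
    obtain ⟨⟨u, v⟩, hq, rfl⟩ := mem_image.1 hp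
    have lt : u < v := (mem_filter.1 hq).2.2
    have a1 : e (u, v) ∈ F ↔ H.Adj u v :=
      ⟨fun h => ⟨lt.ne, Or.inl h⟩, fun h => h.2.resolve_right fun h' => lt_asymm lt (FE _ h').2⟩
    rw [a1, hb u v lt.ne, Fin.forall_fin_add]
    simp only [Fin.addCases_left, Fin.addCases_right, e, r1, r2, if_true, Bool.false_eq_true,
      if_false, neg_le_neg_iff, max_le_iff, le_min_iff]
    exact ⟨fun h => ⟨fun i => (h i).2.1, fun i => (h i).1.2⟩,
      fun h i => ⟨⟨lr u i, h.2 i⟩, h.1 i, lr v i⟩⟩)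
  rw [card_image_of_injective _ ei, Fintype.card_prod, Fintype.card_bool, Fintype.card_coe,
    ← hC] at key
  have c1 : (2 * C + 1) * U.card ≤ (univ.filter fun p : U × U => G.Adj p.1 p.2).card := by
    rw [card_eq_sum_card_fiberwise (f := Prod.fst) (t := univ) (fun _ _ => mem_coe.2 (mem_univ _)),
      mul_comm, ← smul_eq_mul, ← Fintype.card_coe U, ← card_univ]
    refine card_nsmul_le_sum _ _ _ fun v _ => (hd v v.2).trans ?_
    refine card_le_card_of_surjOn (fun p => p.2.1) fun u hu => ?_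
    obtain ⟨k1, k2⟩ := mem_filter.1 (mem_coe.1 hu)
    exact ⟨(v, ⟨u, k1⟩), mem_coe.2 (mem_filter.2 ⟨mem_filter.2 ⟨mem_univ _, k2⟩, rfl⟩), rfl⟩
  have c2 : (univ.filter fun p : U × U => G.Adj p.1 p.2) ⊆ E0 ∪ E0.image Prod.swap := by
    intro p hp
    have a := (mem_filter.1 hp).2
    rcases lt_or_gt_of_ne (fun h : p.1 = p.2 => a.ne (congrArg Subtype.val h)) with h | h
    · exact mem_union_left _ (mem_filter.2 ⟨mem_univ _, a, h⟩)
    · exact mem_union_right _ (mem_image.2 ⟨p.swap, mem_filter.2 ⟨mem_univ _, a.symm, h⟩, rfl⟩)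
  have c3 := (card_le_card c2).trans (card_union_le _ _)
  have c4 := card_image_le (s := E0) (f := Prod.swap)
  have c5 := card_pos.2 hU
  nlinarith

end Pool.Agent.H.MP_6142e4_co
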